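import Pool.Agent.helper19.MX.SpecA

/-!
# Project mx (MP_a875de_ag), row FBU
-/

set_option autoImplicit false

namespace MX

open Pool.Agent.helper53.AU AN
open scoped Classical Topology

section
variable {K : Type} [Field K] [CharP K 2]

theorem FBU_pow (d x : K) (m : ℕ) :
    (x ^ 2 + d * x) ^ (2 ^ m) = x ^ (2 ^ (m + 1)) + d ^ (2 ^ m) * x ^ (2 ^ m) := by
  have h1 : (x ^ 2 + d * x) ^ (2 ^ m) = (x ^ 2) ^ (2 ^ m) + (d * x) ^ (2 ^ m) :=
    add_pow_char_pow (x ^ 2) (d * x) 2 m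
  rw [h1, mul_pow, ← pow_mul, ← pow_succ']

theorem FBU_two : (2 : K) = 0 := by
  have := CharP.cast_eq_zero K 2
  exact_mod_cast this

theorem FBU_id (h : ℕ) (b : ℕ → K) (d x : K) : ∃ u : K,
    fb (h + 1) (Ud h b d) x = fb h b (x ^ 2 + d * x) + (u ^ 2 + u) := by
  -- the four families
  obtain ⟨T, hT⟩ : ∃ T : ℕ → K, T = fun i => b i * x ^ (2 ^ (h + 1)) * x ^ (2 ^ (h + 1 - i)) :=
    ⟨_, rfl⟩
  obtain ⟨P, hP⟩ : ∃ P : ℕ → K, P = fun i =>
    b i * x ^ (2 ^ (h + 1)) * (d ^ (2 ^ (h - i)) * x ^ (2 ^ (h - i))) := ⟨_, rfl⟩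
  obtain ⟨Q, hQ⟩ : ∃ Q : ℕ → K, Q = fun i =>
    b i * (d ^ (2 ^ h) * x ^ (2 ^ h)) * x ^ (2 ^ (h + 1 - i)) := ⟨_, rfl⟩
  obtain ⟨R, hR⟩ : ∃ R : ℕ → K, R = fun i =>
    b i * (d ^ (2 ^ h) * x ^ (2 ^ h)) * (d ^ (2 ^ (h - i)) * x ^ (2 ^ (h - i))) := ⟨_, rfl⟩
  have hsq : ∀ (y : K) (m : ℕ), y ^ (2 ^ (m + 1)) = (y ^ (2 ^ m)) ^ 2 := by
    intro y m
    rw [← pow_mul, ← pow_succ]
  have hRHS : fb h b (x ^ 2 + d * x) = ∑ i ∈ Finset.range (h + 1), (T i + P i + Q i + R i) := by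
    unfold fb
    refine Finset.sum_congr rfl ?_
    intro i hi
    have hi' : i ≤ h := by rw [Finset.mem_range] at hi; omega
    have e : h - i + 1 = h + 1 - i := by omega
    rw [FBU_pow, FBU_pow, e, hT, hP, hQ, hR]
    ring
  have hLHS : fb (h + 1) (Ud h b d) x = ∑ i ∈ Finset.range (h + 1),
      (T i + R i ^ 2 + (if 1 ≤ i then P i else 0) + (if 1 ≤ i then Q i ^ 2 else 0)) := by
    have e1 : ∀ i, Ud h b d i * x ^ (2 ^ (h + 1)) * x ^ (2 ^ (h + 1 - i)) =
        cut h b i * x ^ (2 ^ (h + 1)) * x ^ (2 ^ (h + 1 - i)) +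
        cut h b i ^ 2 * d ^ (2 ^ (h + 1) + 2 ^ (h + 1 - i)) * x ^ (2 ^ (h + 1)) *
          x ^ (2 ^ (h + 1 - i)) +
        (if 2 ≤ i then cut h b (i - 1) * d ^ (2 ^ (h + 1 - i)) * x ^ (2 ^ (h + 1)) *
          x ^ (2 ^ (h + 1 - i)) else 0) +
        cut h b (i + 1) ^ 2 * d ^ (2 ^ (h + 1)) * x ^ (2 ^ (h + 1)) * x ^ (2 ^ (h + 1 - i)) := by
      intro i
      unfold Ud
      by_cases h2 : 2 ≤ i
      · rw [if_pos h2, if_pos h2]; ring
      · rw [if_neg h2, if_neg h2]; ring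
    unfold fb
    rw [Finset.sum_congr rfl (fun i _ => e1 i), Finset.sum_add_distrib, Finset.sum_add_distrib,
      Finset.sum_add_distrib, Finset.sum_add_distrib, Finset.sum_add_distrib,
      Finset.sum_add_distrib]
    have hc0 : cut h b (h + 1) = 0 := by unfold cut; rw [if_neg (by omega)]
    have hc1 : cut h b (h + 1 + 1) = 0 := by unfold cut; rw [if_neg (by omega)]
    have hcut : ∀ i, i < h + 1 → cut h b i = b i := by
      intro i hi
      unfold cut
      rw [if_pos (by omega)]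
    have s1 : ∑ i ∈ Finset.range (h + 1 + 1), cut h b i * x ^ (2 ^ (h + 1)) *
        x ^ (2 ^ (h + 1 - i)) = ∑ i ∈ Finset.range (h + 1), T i := by
      rw [Finset.sum_range_succ, hc0, zero_mul, zero_mul, add_zero]
      refine Finset.sum_congr rfl ?_
      intro i hi
      rw [hcut i (Finset.mem_range.1 hi), hT]
    have s2 : ∑ i ∈ Finset.range (h + 1 + 1), cut h b i ^ 2 *
        d ^ (2 ^ (h + 1) + 2 ^ (h + 1 - i)) * x ^ (2 ^ (h + 1)) * x ^ (2 ^ (h + 1 - i)) =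
        ∑ i ∈ Finset.range (h + 1), R i ^ 2 := by
      rw [Finset.sum_range_succ, hc0, zero_pow (by norm_num), zero_mul, zero_mul, zero_mul,
        add_zero]
      refine Finset.sum_congr rfl ?_
      intro i hi
      rw [Finset.mem_range] at hi
      have e : h + 1 - i = (h - i) + 1 := by omega
      rw [hcut i hi, hR, e, pow_add d, hsq d h, hsq x h, hsq d (h - i), hsq x (h - i)]
      ring
    have s3 : ∑ i ∈ Finset.range (h + 1 + 1), (if 2 ≤ i then cut h b (i - 1) *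
        d ^ (2 ^ (h + 1 - i)) * x ^ (2 ^ (h + 1)) * x ^ (2 ^ (h + 1 - i)) else 0) =
        ∑ i ∈ Finset.range (h + 1), (if 1 ≤ i then P i else 0) := by
      rw [Finset.sum_range_succ', if_neg (by norm_num), add_zero]
      refine Finset.sum_congr rfl ?_
      intro i hi
      rw [Finset.mem_range] at hi
      by_cases h1 : 1 ≤ i
      · have e : h + 1 - (i + 1) = h - i := by omega
        rw [if_pos (by omega), if_pos h1, hP, Nat.add_sub_cancel, hcut i hi, e]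
        ring
      · rw [if_neg (by omega), if_neg h1]
    have s4 : ∑ i ∈ Finset.range (h + 1 + 1), cut h b (i + 1) ^ 2 * d ^ (2 ^ (h + 1)) *
        x ^ (2 ^ (h + 1)) * x ^ (2 ^ (h + 1 - i)) =
        ∑ i ∈ Finset.range (h + 1), (if 1 ≤ i then Q i ^ 2 else 0) := by
      rw [Finset.sum_range_succ, hc1, Finset.sum_range_succ, hc0, zero_pow (by norm_num),
        Finset.sum_range_succ' (fun i => if 1 ≤ i then Q i ^ 2 else 0), if_neg (by norm_num)]
      simp only [zero_mul, add_zero]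
      refine Finset.sum_congr rfl ?_
      intro i hi
      rw [Finset.mem_range] at hi
      have e : h + 1 - i = (h + 1 - (i + 1)) + 1 := by omega
      rw [if_pos (by omega), hcut (i + 1) (by omega), hQ, e, hsq d h, hsq x h,
        hsq x (h + 1 - (i + 1))]
      ring
    rw [s1, s2, s3, s4]
  refine ⟨∑ i ∈ Finset.range (h + 1), (R i + (if 1 ≤ i then Q i else 0)), ?_⟩
  have h2 : (∑ i ∈ Finset.range (h + 1), (R i + (if 1 ≤ i then Q i else 0))) ^ 2 =
      ∑ i ∈ Finset.range (h + 1), (R i + (if 1 ≤ i then Q i else 0)) ^ 2 :=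
    sum_pow_char 2 _ _
  rw [hLHS, hRHS, h2, ← Finset.sum_add_distrib, ← Finset.sum_add_distrib]
  refine Finset.sum_congr rfl ?_
  intro i hi
  rw [Finset.mem_range] at hi
  by_cases h1 : 1 ≤ i
  · rw [if_pos h1, if_pos h1, if_pos h1]
    linear_combination (-(Q i + R i + R i * Q i)) * (FBU_two (K := K))
  · have h0 : i = 0 := by omega
    rw [if_neg h1, if_neg h1, if_neg h1, h0]
    have hPQ : P 0 = Q 0 := by
      rw [hP, hQ]
      simp only [Nat.sub_zero]
      ring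
    rw [hPQ]
    linear_combination (-(Q 0 + R 0)) * (FBU_two (K := K))

end

theorem FBU (hPS1 : PS1_stmt) (_hPSS : PSS_stmt) : FBU_stmt := by
  intro K _ _ _ h _ b d x
  obtain ⟨u, hu⟩ := FBU_id h b d x
  obtain ⟨_, h2, h3, _, _, _⟩ := hPS1 K
  rw [hu, h2, h3, mul_one]

end MX
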