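import Pool.Agent.helper19.MX.SpecA

/-!
# Project mx (MP_a875de_ag), row GPS
-/

set_option autoImplicit false

namespace MX

open Pool.Agent.helper53.AU AN
open scoped Classical Topology

theorem GPS (hCNG : CNG_stmt) (hGNP : GNP_stmt) (hADL : ADL_stmt) : GPS_stmt := by
  intro L _ _ _ _ _ hHH hne θ r A lev hG
  have h1 : ∀ T ∈ (Finset.range r).powerset.erase ∅, 1 ≤ lev T := by
    intro T hT
    rw [Finset.mem_erase, Finset.mem_powerset] at hT
    exact (hCNG L θ _ _ (hG.cert T hT.2 hT.1)).1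
  have h2 : ∀ T ∈ (Finset.range r).powerset.erase ∅, ∀ᶠ e in 𝓝[≠] (0 : L),
      Cert L θ (lev T + 1) (bb (lev T + 1) (Ad (sumT A T) e⁻¹)) := by
    intro T hT
    have hT' := hT
    rw [Finset.mem_erase, Finset.mem_powerset] at hT'
    exact hGNP L hHH θ (lev T) (sumT A T) (h1 T hT) (hG.level T hT'.2 hT'.1)
      (hG.cert T hT'.2 hT'.1)
  have h3 := (Filter.eventually_all_finset _).2 h2
  have h4 : ∀ᶠ e in 𝓝[≠] (0 : L), e ≠ 0 := eventually_mem_nhdsWithin
  obtain ⟨e, he, he0⟩ := (h3.and h4).exists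
  obtain ⟨hA1, hA2⟩ := hADL L
  refine ⟨fun j => Ad (A j) e⁻¹, fun T => lev T + 1, ⟨?_, ?_⟩, ?_⟩
  · intro T hT hT0
    rw [hA2]
    exact hA1 _ _ _ (h1 T (Finset.mem_erase.2 ⟨hT0, Finset.mem_powerset.2 hT⟩)) (inv_ne_zero he0)
      (hG.level T hT hT0)
  · intro T hT hT0
    rw [hA2]
    exact he T (Finset.mem_erase.2 ⟨hT0, Finset.mem_powerset.2 hT⟩)
  · unfold GG
    rw [Finset.mul_sum]
    refine Finset.sum_congr rfl ?_
    intro T hT
    have h5 := h1 T hT
    have h6 : lev T + 1 - 1 = (lev T - 1) + 1 := by omega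
    rw [h6, pow_succ, mul_comm]

end MX
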