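import Pool.Agent.helper19.MX.SpecD

/-!
# Project mx (MP_a875de_ag), row RED
-/

set_option autoImplicit false

namespace MX

open Pool.Agent.helper53.AU AN
open scoped Classical Topology

theorem RED_add_sq {E : Type} [Field E] [CharP E 2] (a b : E) : (a + b) ^ 2 = a ^ 2 + b ^ 2 :=
  add_pow_char a b 2

theorem RED_two {E : Type} [Field E] [CharP E 2] : (2 : E) = 0 := by
  have := CharP.cast_eq_zero E 2
  exact_mod_cast this

theorem RED_ind {k E : Type} [Field k] [Field E] [CharP E 2] [Algebra k E]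
    (hk : ∀ c : k, ∃ c' : k, c' ^ 2 = c) (P : Place k E) (hP : DegOne P) (N : ℕ) :
    ∀ φ : E, P.Ge (-(N : ℤ)) φ → ∃ u : E, P.Ge 0 (φ + u ^ 2 + u) ∨
      (φ + u ^ 2 + u ≠ 0 ∧ ∃ m : ℕ, Odd m ∧ P.ord (φ + u ^ 2 + u) = -(m : ℤ)) := by
  induction N with
  | zero =>
    intro φ h
    refine ⟨0, Or.inl ?_⟩
    have e : φ + (0 : E) ^ 2 + 0 = φ := by ring
    rw [e]
    simpa using h
  | succ N ih =>
    intro φ h
    by_cases h1 : P.Ge (-(N : ℤ)) φ
    · exact ih φ h1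
    have hφ : φ ≠ 0 := fun h0 => h1 (Or.inl h0)
    have h2 : ¬ (-(N : ℤ) ≤ P.ord φ) := fun h3 => h1 (Or.inr h3)
    have h3 := h.le hφ
    have hord : P.ord φ = -((N + 1 : ℕ) : ℤ) := by
      push_cast at h3 ⊢
      omega
    rcases Nat.even_or_odd (N + 1) with hev | hod
    · obtain ⟨n, hn⟩ := hev
      obtain ⟨t, ht0, ht⟩ := P.exists_uniformizer
      have htn : t ^ n ≠ 0 := pow_ne_zero n ht0
      have hψ0 : φ * (t ^ n) ^ 2 ≠ 0 := mul_ne_zero hφ (pow_ne_zero 2 htn)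
      have hψ : P.ord (φ * (t ^ n) ^ 2) = 0 := by
        rw [P.ord_mul _ _ hφ (pow_ne_zero 2 htn), P.ord_pow htn, P.ord_pow ht0, ht, hord, hn]
        push_cast
        ring
      obtain ⟨c, hc⟩ := hP (φ * (t ^ n) ^ 2) (Or.inr (le_of_eq hψ.symm))
      obtain ⟨c', hc'⟩ := hk c
      have hv1 : P.Ge (-(n : ℤ)) (algebraMap k E c' * (t ^ n)⁻¹) := by
        refine Place.Ge.const_mul c' (Or.inr ?_)
        rw [P.ord_inv htn, P.ord_pow ht0, ht, mul_one]
      have hv2 : φ + (algebraMap k E c' * (t ^ n)⁻¹) ^ 2 =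
          (φ * (t ^ n) ^ 2 - algebraMap k E c) * ((t ^ n) ^ 2)⁻¹ := by
        rw [← hc', map_pow]
        field_simp
        linear_combination (algebraMap k E c') ^ 2 * (RED_two (E := E))
      have hv3 : P.Ge (1 + -(2 * (n : ℤ))) (φ + (algebraMap k E c' * (t ^ n)⁻¹) ^ 2) := by
        rw [hv2]
        refine hc.mul (Or.inr ?_)
        rw [P.ord_inv (pow_ne_zero 2 htn), P.ord_pow htn, P.ord_pow ht0, ht]
        push_cast
        linarith
      have hn1 : 1 ≤ n := by omega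
      have hv4 : P.Ge (-(N : ℤ)) (φ + (algebraMap k E c' * (t ^ n)⁻¹) ^ 2 +
          algebraMap k E c' * (t ^ n)⁻¹) := by
        refine Place.Ge.add (hv3.mono ?_) (hv1.mono ?_)
        · omega
        · omega
      obtain ⟨u, hu⟩ := ih _ hv4
      refine ⟨algebraMap k E c' * (t ^ n)⁻¹ + u, ?_⟩
      have e : φ + (algebraMap k E c' * (t ^ n)⁻¹ + u) ^ 2 + (algebraMap k E c' * (t ^ n)⁻¹ + u) =
          φ + (algebraMap k E c' * (t ^ n)⁻¹) ^ 2 + algebraMap k E c' * (t ^ n)⁻¹ + u ^ 2 + u := by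
        rw [RED_add_sq]
        ring
      rw [e]
      exact hu
    · refine ⟨0, Or.inr ?_⟩
      have e : φ + (0 : E) ^ 2 + 0 = φ := by ring
      rw [e]
      exact ⟨hφ, N + 1, hod, hord⟩

theorem RED : RED_stmt := by
  intro k E _ _ _ _ _ hk P hP φ
  refine RED_ind hk P hP (P.ord φ).natAbs φ (Or.inr ?_)
  omega

end MX
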